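import Mathlib
import Pool.Agent.Q106.PK.Stm

/-!
# Project PK (helper106), job MONO (helper229)
-/

set_option autoImplicit false

namespace Pool.Agent.Q106.PK
open Filter Topology

/-- one step of the running minimum -/
def mono_step (g : ℕ → ℕ) (N : ℕ) (n : ℕ) (M : ℕ × ℕ) : ℕ × ℕ :=
  Nat.casesOn (M.1 * (N + n + 2) - g (N + n + 1) * M.2) M (fun _ => (g (N + n + 1), N + n + 2))

/-- the running minimum, numerator and denominator -/
def mono_min (g : ℕ → ℕ) (N : ℕ) (n : ℕ) : ℕ × ℕ :=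
  Nat.rec (g N, N + 1) (fun k IH => mono_step g N k IH) n

theorem mono_step_eq (g : ℕ → ℕ) (N n : ℕ) (M : ℕ × ℕ) :
    (mono_step g N n M = M ∧ M.1 * (N + n + 2) ≤ g (N + n + 1) * M.2) ∨
    (mono_step g N n M = (g (N + n + 1), N + n + 2) ∧ g (N + n + 1) * M.2 < M.1 * (N + n + 2)) := by
  unfold mono_step
  rcases h : M.1 * (N + n + 2) - g (N + n + 1) * M.2 with _ | k
  · left
    exact ⟨rfl, Nat.le_of_sub_eq_zero h⟩
  · right
    refine ⟨rfl, ?_⟩
    omega

theorem mono_comp (g : ℕ → ℕ) (N : ℕ) (hg : Computable g) : Computable (mono_min g N) := by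
  have hadd : Computable₂ ((· + ·) : ℕ → ℕ → ℕ) := Primrec.nat_add.to_comp
  have hmul : Computable₂ ((· * ·) : ℕ → ℕ → ℕ) := Primrec.nat_mul.to_comp
  have hsub : Computable₂ ((· - ·) : ℕ → ℕ → ℕ) := Primrec.nat_sub.to_comp
  have hstep : Computable fun p : ℕ × (ℕ × (ℕ × ℕ)) => mono_step g N p.2.1 p.2.2 := by
    have hn : Computable fun p : ℕ × (ℕ × (ℕ × ℕ)) => p.2.1 := Computable.fst.comp Computable.snd
    have hM : Computable fun p : ℕ × (ℕ × (ℕ × ℕ)) => p.2.2 := Computable.snd.comp Computable.snd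
    have h1 : Computable fun p : ℕ × (ℕ × (ℕ × ℕ)) => N + p.2.1 :=
      hadd.comp (Computable.const N) hn
    have h2 : Computable fun p : ℕ × (ℕ × (ℕ × ℕ)) => N + p.2.1 + 2 :=
      hadd.comp h1 (Computable.const 2)
    have h3 : Computable fun p : ℕ × (ℕ × (ℕ × ℕ)) => g (N + p.2.1 + 1) :=
      hg.comp (hadd.comp h1 (Computable.const 1))
    have h4 : Computable fun p : ℕ × (ℕ × (ℕ × ℕ)) =>
        p.2.2.1 * (N + p.2.1 + 2) - g (N + p.2.1 + 1) * p.2.2.2 :=
      hsub.comp (hmul.comp (Computable.fst.comp hM) h2) (hmul.comp h3 (Computable.snd.comp hM))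
    exact Computable.nat_casesOn h4 hM ((h3.pair h2).comp Computable.fst).to₂
  have h := Computable.nat_rec (f := fun n : ℕ => n) (g := fun _ : ℕ => (g N, N + 1))
    (h := fun (_ : ℕ) (p : ℕ × (ℕ × ℕ)) => mono_step g N p.1 p.2) Computable.id
    (Computable.const _) hstep.to₂
  exact h

theorem mono_zero (g : ℕ → ℕ) (N : ℕ) : mono_min g N 0 = (g N, N + 1) := rfl

theorem mono_succ (g : ℕ → ℕ) (N n : ℕ) : mono_min g N (n + 1) = mono_step g N n (mono_min g N n) := rfl

theorem mono_pos (g : ℕ → ℕ) (N n : ℕ) : 0 < (mono_min g N n).2 := by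
  induction n with
  | zero => rw [mono_zero]; exact Nat.succ_pos _
  | succ n ih =>
    rw [mono_succ]
    rcases mono_step_eq g N n (mono_min g N n) with ⟨h, -⟩ | ⟨h, -⟩
    · rw [h]; exact ih
    · rw [h]; exact Nat.succ_pos _

/-- the running minimum does not increase -/
theorem mono_le (g : ℕ → ℕ) (N n : ℕ) :
    ((mono_min g N (n + 1)).1 : ℚ) / ((mono_min g N (n + 1)).2 : ℚ) ≤
      ((mono_min g N n).1 : ℚ) / ((mono_min g N n).2 : ℚ) := by
  rw [mono_succ]
  rcases mono_step_eq g N n (mono_min g N n) with ⟨h, -⟩ | ⟨h, h'⟩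
  · rw [h]
  · rw [h]
    have h1 : (0 : ℚ) < ((mono_min g N n).2 : ℚ) := by exact_mod_cast mono_pos g N n
    have h2 : (0 : ℚ) < ((N + n + 2 : ℕ) : ℚ) := by positivity
    rw [div_le_div_iff₀ h2 h1]
    exact_mod_cast h'.le

/-- the running minimum is at most the last quotient -/
theorem mono_last (g : ℕ → ℕ) (N n : ℕ) :
    ((mono_min g N n).1 : ℝ) / ((mono_min g N n).2 : ℝ) ≤ (g (N + n) : ℝ) / (((N + n : ℕ) : ℝ) + 1) := by
  cases n with
  | zero =>
    rw [mono_zero]
    simp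
  | succ n =>
    rw [mono_succ]
    rcases mono_step_eq g N n (mono_min g N n) with ⟨h, h'⟩ | ⟨h, -⟩
    · rw [h]
      have h1 : (0 : ℝ) < ((mono_min g N n).2 : ℝ) := by exact_mod_cast mono_pos g N n
      have h2 : (0 : ℝ) < ((N + (n + 1) : ℕ) : ℝ) + 1 := by positivity
      rw [div_le_div_iff₀ h1 h2]
      have h3 : ((mono_min g N n).1 : ℝ) * ((N + n + 2 : ℕ) : ℝ) ≤
          (g (N + n + 1) : ℝ) * ((mono_min g N n).2 : ℝ) := by exact_mod_cast h'
      have h4 : ((N + (n + 1) : ℕ) : ℝ) + 1 = ((N + n + 2 : ℕ) : ℝ) := by push_cast; ring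
      rw [h4]
      exact h3
    · rw [h]
      have h4 : ((N + (n + 1) : ℕ) : ℝ) + 1 = ((N + n + 2 : ℕ) : ℝ) := by push_cast; ring
      rw [h4]
      exact le_of_eq rfl

/-- the running minimum is one of the quotients -/
theorem mono_attained (g : ℕ → ℕ) (N n : ℕ) : ∃ m, N ≤ m ∧ mono_min g N n = (g m, m + 1) := by
  induction n with
  | zero => exact ⟨N, le_rfl, rfl⟩
  | succ n ih =>
    rw [mono_succ]
    rcases mono_step_eq g N n (mono_min g N n) with ⟨h, -⟩ | ⟨h, -⟩
    · rw [h]; exact ih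
    · rw [h]; exact ⟨N + n + 1, by omega, rfl⟩

/-- **JOB MONO.** -/
theorem t_MONO : S_MONO := by
  intro lam g N hg hlow hlim
  have hfst : Computable fun n => (mono_min g N n).1 := Computable.fst.comp (mono_comp g N hg)
  have hsnd : Computable fun n => (mono_min g N n).2 := Computable.snd.comp (mono_comp g N hg)
  have hadd : Computable₂ ((· + ·) : ℕ → ℕ → ℕ) := Primrec.nat_add.to_comp
  have hmul : Computable₂ ((· * ·) : ℕ → ℕ → ℕ) := Primrec.nat_mul.to_comp
  have hpos : ∀ n, (0 : ℝ) < ((mono_min g N n).2 : ℝ) := fun n => by exact_mod_cast mono_pos g N n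
  have hposq : ∀ n, (0 : ℚ) < ((mono_min g N n).2 : ℚ) := fun n => by exact_mod_cast mono_pos g N n
  refine ⟨fun n => (mono_min g N n).1 * (n + 1) + (mono_min g N n).2, fun n => (mono_min g N n).2 * (n + 1),
    ?_, ?_, ?_, ?_, ?_⟩
  · exact hadd.comp (hmul.comp hfst Computable.succ) hsnd
  · exact hmul.comp hsnd Computable.succ
  · intro n
    exact Nat.mul_pos (mono_pos g N n) (Nat.succ_pos n)
  · refine strictAnti_nat_of_succ_lt fun n => ?_
    have e : ∀ n : ℕ, (((mono_min g N n).1 * (n + 1) + (mono_min g N n).2 : ℕ) : ℚ) /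
        (((mono_min g N n).2 * (n + 1) : ℕ) : ℚ) =
        ((mono_min g N n).1 : ℚ) / ((mono_min g N n).2 : ℚ) + 1 / ((n : ℚ) + 1) := by
      intro n
      have h1 := (hposq n).ne'
      have h2 : ((n : ℚ) + 1) ≠ 0 := by positivity
      push_cast
      field_simp
    show (((mono_min g N (n + 1)).1 * (n + 1 + 1) + (mono_min g N (n + 1)).2 : ℕ) : ℚ) /
        (((mono_min g N (n + 1)).2 * (n + 1 + 1) : ℕ) : ℚ) <
      (((mono_min g N n).1 * (n + 1) + (mono_min g N n).2 : ℕ) : ℚ) / (((mono_min g N n).2 * (n + 1) : ℕ) : ℚ)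
    rw [e n, e (n + 1)]
    have h1 := mono_le g N n
    have h2 : 1 / (((n + 1 : ℕ) : ℚ) + 1) < 1 / ((n : ℚ) + 1) := by
      apply one_div_lt_one_div_of_lt
      · positivity
      · push_cast; linarith
    linarith
  · have e : ∀ n : ℕ, (((mono_min g N n).1 * (n + 1) + (mono_min g N n).2 : ℕ) : ℝ) /
        (((mono_min g N n).2 * (n + 1) : ℕ) : ℝ) =
        ((mono_min g N n).1 : ℝ) / ((mono_min g N n).2 : ℝ) + 1 / ((n : ℝ) + 1) := by
      intro n
      have h1 := (hpos n).ne'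
      have h2 : ((n : ℝ) + 1) ≠ 0 := by positivity
      push_cast
      field_simp
    have hmin : Tendsto (fun n => ((mono_min g N n).1 : ℝ) / ((mono_min g N n).2 : ℝ)) atTop (𝓝 lam) := by
      have hshift : Tendsto (fun n : ℕ => (g (N + n) : ℝ) / (((N + n : ℕ) : ℝ) + 1)) atTop (𝓝 lam) := by
        have h := hlim.comp (tendsto_add_atTop_nat N)
        refine h.congr fun n => ?_
        simp only [Function.comp]
        rw [add_comm n N]
      refine tendsto_of_tendsto_of_tendsto_of_le_of_le tendsto_const_nhds hshift ?_ ?_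
      · intro n
        obtain ⟨m, hm, h⟩ := mono_attained g N n
        show lam ≤ ((mono_min g N n).1 : ℝ) / ((mono_min g N n).2 : ℝ)
        rw [h]
        have := hlow m hm
        push_cast
        exact this
      · intro n
        exact mono_last g N n
    have hsum := hmin.add (tendsto_one_div_add_atTop_nhds_zero_nat (𝕜 := ℝ))
    rw [add_zero] at hsum
    refine hsum.congr fun n => ?_
    exact (e n).symm

end Pool.Agent.Q106.PK
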