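import Pool.Agent.H622R2.Base
import Pool.Agent.NPC.Dec
import Pool.Agent.H671R2.PolyAuto

/-!
# Common tools for decision problems about graphs given by adjacency matrices
-/

set_option autoImplicit false

namespace Q229

open Pool.Agent.NPC Pool.Agent.H622R2

/-- The graph of the adjacency matrix of a labelled graph is isomorphic to any structured graph with
the same labels. -/
theorem matGraph_iso {V Λ : Type} (vs : List Λ) (hn : vs.Nodup)
    (adj : Λ → Λ → Bool) (G : SimpleGraph V) (c : V → Λ) (hc : Function.Injective c)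
    (hmem : ∀ z, z ∈ vs ↔ ∃ x, c x = z)
    (h : ∀ x y, G.Adj x y ↔ x ≠ y ∧ (adj (c x) (c y) = true ∨ adj (c y) (c x) = true)) :
    Nonempty (matGraph (mat vs adj) ≃g G) := by
  classical
  obtain ⟨e, he⟩ := R671.exists_equiv vs hn c hc hmem
  refine ⟨⟨(finCongr (mat_length vs adj)).trans e, ?_⟩⟩
  intro a b
  have ha : a.1 < vs.length := lt_of_lt_of_eq a.2 (mat_length vs adj)
  have hb : b.1 < vs.length := lt_of_lt_of_eq b.2 (mat_length vs adj)
  simp only [matGraph, Equiv.trans_apply, finCongr_apply]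
  rw [entry_mat _ _ _ _ ha hb, entry_mat _ _ _ _ hb ha, h, he, he]
  constructor
  · rintro ⟨h1, h2⟩
    exact ⟨fun h3 => h1 (by rw [h3]), h2⟩
  · rintro ⟨h1, h2⟩
    refine ⟨fun h3 => h1 ?_, h2⟩
    have := e.injective h3
    exact (finCongr (mat_length vs adj)).injective this

/-- The same, with the labels of the vertices. -/
theorem matGraph_iso' {V Λ : Type} (vs : List Λ) (hn : vs.Nodup)
    (adj : Λ → Λ → Bool) (G : SimpleGraph V) (c : V → Λ) (hc : Function.Injective c)
    (hmem : ∀ z, z ∈ vs ↔ ∃ x, c x = z)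
    (h : ∀ x y, G.Adj x y ↔ x ≠ y ∧ (adj (c x) (c y) = true ∨ adj (c y) (c x) = true)) :
    ∃ e : matGraph (mat vs adj) ≃g G, ∀ (i : Fin (mat vs adj).length) (hi : i.1 < vs.length),
      c (e i) = vs[i.1] := by
  classical
  obtain ⟨e, he⟩ := R671.exists_equiv vs hn c hc hmem
  refine ⟨⟨(finCongr (mat_length vs adj)).trans e, ?_⟩, ?_⟩
  · intro a b
    have ha : a.1 < vs.length := lt_of_lt_of_eq a.2 (mat_length vs adj)
    have hb : b.1 < vs.length := lt_of_lt_of_eq b.2 (mat_length vs adj)
    simp only [matGraph, Equiv.trans_apply, finCongr_apply]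
    rw [entry_mat _ _ _ _ ha hb, entry_mat _ _ _ _ hb ha, h, he, he]
    constructor
    · rintro ⟨h1, h2⟩
      exact ⟨fun h3 => h1 (by rw [h3]), h2⟩
    · rintro ⟨h1, h2⟩
      refine ⟨fun h3 => h1 ?_, h2⟩
      have := e.injective h3
      exact (finCongr (mat_length vs adj)).injective this
  · intro i hi
    exact he _

/-- constant functions are polynomial-time computable -/
theorem pc {α β : Type} [TEnc α] [TEnc β] (b : β) : Poly (fun _ : α => b) :=
  Pool.Agent.NPC.Poly.const b

theorem pmap {α β γ : Type} [TEnc α] [TEnc β] [TEnc γ] {l : α → List β} {F : α → β → γ}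
    (hl : Poly l) (hF : Poly (fun p : α × β => F p.1 p.2)) : Poly (fun a => (l a).map (F a)) :=
  Pool.Agent.NPC.Poly.map hl hF

theorem padd {α : Type} [TEnc α] {m n : α → ℕ} (hm : Poly m) (hn : Poly n) :
    Poly (fun a => m a + n a) := Pool.Agent.NPC.Poly.add hm hn

theorem psub {α : Type} [TEnc α] {m n : α → ℕ} (hm : Poly m) (hn : Poly n) :
    Poly (fun a => m a - n a) := Pool.Agent.NPC.Poly.sub hm hn

theorem pmul {α : Type} [TEnc α] {m n : α → ℕ} (hm : Poly m) (hn : Poly n) :
    Poly (fun a => m a * n a) := Pool.Agent.NPC.Poly.mul hm hn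

/-- adjacency test -/
def adjT (M : List (List Bool)) (i j : ℕ) : Bool :=
  !decide (i = j) && ((M.getD i []).getD j false || (M.getD j []).getD i false)

theorem adjT_iff (M : List (List Bool)) (i j : Fin M.length) :
    adjT M i j = true ↔ (matGraph M).Adj i j := by
  unfold adjT matGraph entry
  simp only [Bool.and_eq_true, Bool.not_eq_true', decide_eq_false_iff_not, Bool.or_eq_true]
  rw [← Fin.ext_iff]

theorem adjT_poly {α : Type} [TEnc α] {M : α → List (List Bool)} {i j : α → ℕ} (hM : Poly M)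
    (hi : Poly i) (hj : Poly j) : Poly (fun a => adjT (M a) (i a) (j a)) := by
  unfold adjT
  exact Poly.and (Poly.not (Poly.decide_eq hi hj)) (Poly.or
    (Poly.getD (Poly.getD hM hi (pc [])) hj (pc false))
    (Poly.getD (Poly.getD hM hj (pc [])) hi (pc false)))

/-- The labels `(t, i, j)` with `i < a`, `j < b`. -/
def block (t a b : ℕ) : List (ℕ × ℕ × ℕ) :=
  (List.range a).flatMap fun i => (List.range b).map fun j => (t, i, j)

theorem mem_block {t a b : ℕ} {z : ℕ × ℕ × ℕ} :
    z ∈ block t a b ↔ z.1 = t ∧ z.2.1 < a ∧ z.2.2 < b := by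
  unfold block
  simp only [List.mem_flatMap, List.mem_range, List.mem_map]
  constructor
  · rintro ⟨i, hi, j, hj, rfl⟩
    exact ⟨rfl, hi, hj⟩
  · rintro ⟨rfl, h1, h2⟩
    exact ⟨_, h1, _, h2, rfl⟩

theorem block_nodup (t a b : ℕ) : (block t a b).Nodup := by
  unfold block
  refine nodup_flatMap_of (fun z => z.2.1) List.nodup_range ?_ ?_
  · intro i _
    exact List.nodup_range.map (fun x y h => by simpa using h)
  · intro i _ z hz
    simp only [List.mem_map] at hz
    obtain ⟨j, _, rfl⟩ := hz
    rfl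

theorem block_append_nodup {t a b : ℕ} {l : List (ℕ × ℕ × ℕ)} (hl : l.Nodup)
    (h : ∀ z ∈ l, z.1 ≠ t) : (block t a b ++ l).Nodup := by
  rw [List.nodup_append]
  refine ⟨block_nodup _ _ _, hl, ?_⟩
  rintro x hx y hy rfl
  exact h x hy (mem_block.1 hx).1

theorem block_poly {α : Type} [TEnc α] (t : ℕ) {a b : α → ℕ} (ha : UPoly a) (hb : UPoly b) :
    Poly (fun x => block t (a x) (b x)) := by
  unfold block
  refine Poly.flatMap (F := fun x i => (List.range (b x)).map fun j => (t, i, j)) ha.range ?_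
  refine pmap (l := fun p : α × ℕ => List.range (b p.1)) (F := fun (p : α × ℕ) j => (t, p.2, j))
    (hb.comp (Poly.fst Poly.id)).range ?_
  exact Poly.pair (pc t) (Poly.pair (Poly.snd (Poly.fst Poly.id)) (Poly.snd Poly.id))

/-- A list of at most `n` numbers below `n` has small code. -/
theorem sz_list_lt (n : ℕ) (l : List ℕ) (h : ∀ x ∈ l, x < n) (hl : l.length ≤ n) :
    sz l ≤ n * (4 * n + 2) + 1 := by
  have h1 := sz_le_length_mul l (4 * n + 1) (by
    intro a ha
    have h2 := sz_nat_le a
    have h3 := Poly.size_le_self a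
    have h4 := h a ha
    omega)
  refine h1.trans ?_
  have h5 : l.length * (4 * n + 1 + 1) ≤ n * (4 * n + 2) := Nat.mul_le_mul hl (by omega)
  omega

end Q229
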