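import Pool.Agent.H557R2.Tri.Src
import Pool.Agent.Q229.Base

/-!
# Exact cover by 3-sets in a convenient form
-/

set_option autoImplicit false

namespace Q229

open Pool.Agent.NPC Pool.Agent.NPC.H632

/-- The promise on the instances of exact cover by 3-sets: the components of every triple are
distinct and below `3q`, every number below `3q` occurs in some triple, and `1 ≤ q ≤` number of
triples. -/
structure X3Ok (I : List (ℕ × ℕ × ℕ) × ℕ) : Prop where
  nodup : ∀ t ∈ I.1, (el t).Nodup
  lt : ∀ t ∈ I.1, ∀ x ∈ el t, x < 3 * I.2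
  occ : ∀ e < 3 * I.2, ∃ t ∈ I.1, e ∈ el t
  pos : 1 ≤ I.2
  le : I.2 ≤ I.1.length

theorem length_flatMap_el (C : List (ℕ × ℕ × ℕ)) : (C.flatMap el).length = 3 * C.length := by
  induction C with
  | nil => rfl
  | cons t C ih =>
    rw [List.flatMap_cons, List.length_append, ih, List.length_cons]
    simp only [el, List.length_cons, List.length_nil]
    omega

theorem hardPr_X3 : HardPr X3Ok X3C := by
  refine Pool.Agent.H557R2.Tri.hardPr_X3Cr.trans (f := fun I => I) Poly.id ?_ (fun _ _ => Iff.rfl)
  rintro ⟨S, q⟩ h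
  have hlt : ∀ t ∈ S, ∀ x ∈ el t, x < 3 * q := by
    intro t ht x hx
    have h1 := h.lt t ht
    simp only [el, List.mem_cons, List.not_mem_nil, or_false] at hx
    rcases hx with rfl | rfl | rfl
    · exact h1.1
    · exact h1.2.1
    · exact h1.2.2
  have hq : 1 ≤ q := by
    obtain ⟨t, ht⟩ := List.exists_mem_of_ne_nil _ h.ne
    have := (h.lt t ht).1
    omega
  have hle : q ≤ S.length := by
    have h1 : List.range (3 * q) ⊆ S.flatMap el := by
      intro e he
      obtain ⟨t, ht, het⟩ := h.occ e (List.mem_range.1 he)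
      exact List.mem_flatMap.2 ⟨t, ht, het⟩
    have h2 := (List.subperm_of_subset List.nodup_range h1).length_le
    rw [List.length_range, length_flatMap_el] at h2
    omega
  exact ⟨fun t ht => by
    simp only [el, List.nodup_cons, List.mem_cons, List.not_mem_nil, or_false, not_or,
      List.nodup_nil, and_true, not_false_eq_true]
    exact ⟨⟨h.d01 t ht t ht, h.d02 t ht t ht⟩, h.d12 t ht t ht⟩, hlt, h.occ, hq, hle⟩

/-- Exact cover in terms of `q` triples covering everything. -/
theorem x3c_iff {I : List (ℕ × ℕ × ℕ) × ℕ} (h : X3Ok I) :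
    X3C I ↔ ∃ f : Fin I.2 → Fin I.1.length, ∀ e < 3 * I.2, ∃ i, e ∈ el (I.1[f i]) := by
  constructor
  · rintro ⟨C, hC, hp⟩
    have hlen : C.length = I.2 := by
      have h1 := hp.length_eq
      rw [length_flatMap_el, List.length_range] at h1
      omega
    have h2 : ∀ i : Fin I.2, ∃ j : Fin I.1.length, I.1[j] = C[i.1]'(by omega) := by
      intro i
      obtain ⟨j, hj, hj'⟩ := List.getElem_of_mem (hC _ (List.getElem_mem (l := C) (n := i.1)
        (by omega)))
      exact ⟨⟨j, hj⟩, hj'⟩
    choose f hf using h2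
    refine ⟨f, fun e he => ?_⟩
    have h3 : e ∈ C.flatMap el := hp.mem_iff.2 (List.mem_range.2 he)
    obtain ⟨t, ht, het⟩ := List.mem_flatMap.1 h3
    obtain ⟨i, hi, rfl⟩ := List.getElem_of_mem ht
    refine ⟨⟨i, by omega⟩, ?_⟩
    rw [hf]
    exact het
  · rintro ⟨f, hf⟩
    refine ⟨List.ofFn fun i => I.1[f i], ?_, ?_⟩
    · intro t ht
      rw [List.mem_ofFn] at ht
      obtain ⟨i, rfl⟩ := ht
      exact List.getElem_mem _
    · have h1 : List.range (3 * I.2) ⊆ (List.ofFn fun i => I.1[f i]).flatMap el := by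
        intro e he
        obtain ⟨i, hi⟩ := hf e (List.mem_range.1 he)
        exact List.mem_flatMap.2 ⟨_, List.mem_ofFn.2 ⟨i, rfl⟩, hi⟩
      refine ((List.subperm_of_subset List.nodup_range h1).perm_of_length_le ?_).symm
      rw [List.length_range, length_flatMap_el, List.length_ofFn]

end Q229
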