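import Pool.Agent.H687R2.IntPoly
import Pool.Agent.ER.Rat
import Pool.Agent.H671R2.PolyAuto

/-!
# Rational arithmetic is polynomial-time computable
-/

set_option autoImplicit false

namespace Q229.RatP

open Pool.Agent Pool.Agent.NPC

variable {α : Type} [TEnc α]

theorem poly_num {f : α → ℚ} (hf : Poly f) : Poly (fun a => (f a).num) :=
  NPC.Poly.fst (f := fun a => ((f a).num, (f a).den)) hf

theorem poly_den {f : α → ℚ} (hf : Poly f) : Poly (fun a => (f a).den) :=
  NPC.Poly.snd (f := fun a => ((f a).num, (f a).den)) hf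

theorem poly_mkRat {n : α → ℤ} {d : α → ℕ} (hn : Poly n) (hd : Poly d) :
    Poly (fun a => mkRat (n a) (d a)) := by
  have hg : Poly (fun a => Nat.gcd (n a).natAbs (d a)) := NPC.Poly.gcd (NPC.Poly.natAbs hn) hd
  have h0 : Poly (fun a => decide (d a = 0)) := NPC.Poly.decide_eq hd (NPC.Poly.const 0)
  have h1 : Poly (fun a => if d a = 0 then (0 : ℤ) else n a / (Nat.gcd (n a).natAbs (d a) : ℤ)) :=
    NPC.Poly.ite h0 (NPC.Poly.const 0) (NPC.Poly.idiv hn hg)
  have h2 : Poly (fun a => if d a = 0 then 1 else d a / Nat.gcd (n a).natAbs (d a)) :=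
    NPC.Poly.ite h0 (NPC.Poly.const 1) (NPC.Poly.div hd hg)
  have h3 : Poly (fun a => ((mkRat (n a) (d a)).num, (mkRat (n a) (d a)).den)) := by
    refine (NPC.Poly.pair h1 h2).congr fun a => ?_
    rw [Rat.mkRat_def]
    split_ifs with h
    · rfl
    · rw [Rat.normalize_eq]
  exact h3

@[fun_prop]
theorem poly_add {f g : α → ℚ} (hf : Poly f) (hg : Poly g) : Poly (fun a => f a + g a) :=
  (poly_mkRat (NPC.Poly.iadd (NPC.Poly.imul (poly_num hf) (NPC.Poly.natCast (poly_den hg)))
    (NPC.Poly.imul (poly_num hg) (NPC.Poly.natCast (poly_den hf))))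
    (NPC.Poly.mul (poly_den hf) (poly_den hg))).congr fun _ => (Rat.add_def' _ _).symm

@[fun_prop]
theorem poly_mul {f g : α → ℚ} (hf : Poly f) (hg : Poly g) : Poly (fun a => f a * g a) :=
  (poly_mkRat (NPC.Poly.imul (poly_num hf) (poly_num hg))
    (NPC.Poly.mul (poly_den hf) (poly_den hg))).congr fun _ => (Rat.mul_def' _ _).symm

@[fun_prop]
theorem poly_neg {f : α → ℚ} (hf : Poly f) : Poly (fun a => - f a) :=
  (poly_mkRat (NPC.Poly.ineg (poly_num hf)) (poly_den hf)).congr fun a => by
    rw [Rat.mkRat_eq_div]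
    push_cast
    rw [neg_div, Rat.num_div_den]

@[fun_prop]
theorem poly_sub {f g : α → ℚ} (hf : Poly f) (hg : Poly g) : Poly (fun a => f a - g a) :=
  (poly_add hf (poly_neg hg)).congr fun _ => (sub_eq_add_neg _ _).symm

@[fun_prop]
theorem poly_inv {f : α → ℚ} (hf : Poly f) : Poly (fun a => (f a)⁻¹) :=
  (poly_mkRat (NPC.Poly.ofSM (NPC.Poly.isNeg (poly_num hf)) (poly_den hf))
    (NPC.Poly.natAbs (poly_num hf))).congr fun a => by
      rw [Rat.mkRat_eq_div]
      conv_rhs => rw [← Rat.num_div_den (f a)]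
      rw [inv_div]
      by_cases h : (f a).num < 0
      · have e : (((f a).num.natAbs : ℕ) : ℚ) = -((f a).num : ℚ) := by
          have : (((f a).num.natAbs : ℕ) : ℤ) = -(f a).num := by omega
          have h2 := congrArg (Int.cast : ℤ → ℚ) this
          rwa [Int.cast_natCast, Int.cast_neg] at h2
        simp only [NPC.ofSM, h, decide_true, cond_true]
        rw [e]
        push_cast
        rw [neg_div_neg_eq]
      · have e : (((f a).num.natAbs : ℕ) : ℚ) = ((f a).num : ℚ) := by
          have : (((f a).num.natAbs : ℕ) : ℤ) = (f a).num := by omega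
          have h2 := congrArg (Int.cast : ℤ → ℚ) this
          rwa [Int.cast_natCast] at h2
        simp only [NPC.ofSM, h, decide_false, cond_false]
        rw [e]
        push_cast
        rfl

@[fun_prop]
theorem poly_div {f g : α → ℚ} (hf : Poly f) (hg : Poly g) : Poly (fun a => f a / g a) :=
  (poly_mul hf (poly_inv hg)).congr fun _ => (div_eq_mul_inv _ _).symm

@[fun_prop]
theorem poly_lt {f g : α → ℚ} (hf : Poly f) (hg : Poly g) : Poly (fun a => decide (f a < g a)) :=
  (NPC.Poly.ilt (NPC.Poly.imul (poly_num hf) (NPC.Poly.natCast (poly_den hg)))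
    (NPC.Poly.imul (poly_num hg) (NPC.Poly.natCast (poly_den hf)))).congr fun a => by
      rw [decide_eq_decide, Rat.lt_iff]

@[fun_prop]
theorem poly_le {f g : α → ℚ} (hf : Poly f) (hg : Poly g) : Poly (fun a => decide (f a ≤ g a)) :=
  (NPC.Poly.ile (NPC.Poly.imul (poly_num hf) (NPC.Poly.natCast (poly_den hg)))
    (NPC.Poly.imul (poly_num hg) (NPC.Poly.natCast (poly_den hf)))).congr fun a => by
      rw [decide_eq_decide, Rat.le_iff]

end Q229.RatP
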